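import Mathlib

/-!
# Covering numbers and revision cardinals
-/

set_option autoImplicit false

open Cardinal Ordinal Set Order

universe u

namespace Pool.Agent.H7.REV

/-- The covering number `cov(ρ₁, ρ₂, ρ₃, ρ₄)`: the least cardinality of a family `X` of subsets of
cardinality less than `ρ₂` of a set of cardinality `ρ₁` such that each subset `b` of cardinality less
than `ρ₃` is contained in the union of a subfamily `Q` of `X` of cardinality less than `ρ₄`. -/
noncomputable def cov (ρ₁ ρ₂ ρ₃ ρ₄ : Cardinal.{u}) : Cardinal.{u} :=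
  sInf {c | ∃ X : Set (Set ρ₁.out), #X = c ∧ (∀ x ∈ X, #x < ρ₂) ∧
    ∀ b : Set ρ₁.out, #b < ρ₃ → ∃ Q ⊆ X, #Q < ρ₄ ∧ b ⊆ ⋃₀ Q}

/-- `χ` is a `lam`-revision cardinal: `cov(lam, χ, χ, σ) ≤ lam` for some `σ < χ` (covering numbers
are defined for `σ ≥ 2`). -/
def IsRevision (lam χ : Cardinal.{u}) : Prop := ∃ σ < χ, 2 ≤ σ ∧ cov lam χ χ σ ≤ lam

/-- some family of at most `ν` sets of size less than `χ` covers all sets of size less than `χ`, with
less than `σ` members for each -/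
def Cov (S : Type u) (χ σ ν : Cardinal.{u}) : Prop :=
  ∃ X : Set (Set S), #X ≤ ν ∧ (∀ x ∈ X, #x < χ) ∧
    ∀ b : Set S, #b < χ → ∃ Q ⊆ X, #Q < σ ∧ b ⊆ ⋃₀ Q

lemma cov_le_iff {lam χ σ ν : Cardinal.{u}} (hσ : 2 ≤ σ) :
    cov lam χ χ σ ≤ ν ↔ Cov lam.out χ σ ν := by
  have hne : {c | ∃ X : Set (Set lam.out), #X = c ∧ (∀ x ∈ X, #x < χ) ∧
    ∀ b : Set lam.out, #b < χ → ∃ Q ⊆ X, #Q < σ ∧ b ⊆ ⋃₀ Q}.Nonempty := by
    have h : ∀ b : Set lam.out, #b < χ →
        ∃ Q ⊆ {x : Set lam.out | #x < χ}, #Q < σ ∧ b ⊆ ⋃₀ Q := by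
      intro b hb
      refine ⟨{b}, ?_, ?_, ?_⟩
      · simpa using hb
      · rw [mk_singleton]; exact lt_of_lt_of_le one_lt_two hσ
      · simp
    exact ⟨_, {x : Set lam.out | #x < χ}, rfl, fun x hx => hx, h⟩
  constructor
  · intro h
    obtain ⟨X, h1, h2, h3⟩ := csInf_mem hne
    exact ⟨X, h1.trans_le h, h2, h3⟩
  · rintro ⟨X, h1, h2, h3⟩
    unfold cov
    refine le_trans (csInf_le' (a := #X) ?_) h1
    exact ⟨X, rfl, h2, h3⟩

lemma Cov.of_embedding {S T : Type u} {χ σ ν : Cardinal.{u}} (f : S → T)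
    (hf : Function.Injective f) (h : Cov T χ σ ν) : Cov S χ σ ν := by
  obtain ⟨X, h1, h2, h3⟩ := h
  refine ⟨(fun x => f ⁻¹' x) '' X, mk_image_le.trans h1, ?_, ?_⟩
  · rintro _ ⟨x, hx, rfl⟩
    exact (mk_preimage_of_injective f x hf).trans_lt (h2 x hx)
  · intro b hb
    obtain ⟨Q, hQ1, hQ2, hQ3⟩ := h3 (f '' b) (mk_image_le.trans_lt hb)
    refine ⟨(fun x => f ⁻¹' x) '' Q, image_mono hQ1, mk_image_le.trans_lt hQ2, ?_⟩
    intro x hx
    obtain ⟨q, hq, hq'⟩ := hQ3 (mem_image_of_mem f hx)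
    exact ⟨f ⁻¹' q, mem_image_of_mem _ hq, hq'⟩

lemma Cov.mono {S : Type u} {χ σ σ' ν ν' : Cardinal.{u}} (hσ : σ ≤ σ') (hν : ν ≤ ν')
    (h : Cov S χ σ ν) : Cov S χ σ' ν' := by
  obtain ⟨X, h1, h2, h3⟩ := h
  exact ⟨X, h1.trans hν, h2, fun b hb => by
    obtain ⟨Q, q1, q2, q3⟩ := h3 b hb
    exact ⟨Q, q1, q2.trans_le hσ, q3⟩⟩

lemma cov_mono_left {μ lam χ σ : Cardinal.{u}} (h : μ ≤ lam) (hσ : 2 ≤ σ) :
    cov μ χ χ σ ≤ cov lam χ χ σ := by
  rw [cov_le_iff hσ]
  have h' : #μ.out ≤ #(lam.out) := by rwa [mk_out, mk_out]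
  obtain ⟨f⟩ := Cardinal.le_def _ _ |>.1 h'
  exact ((cov_le_iff hσ).1 le_rfl).of_embedding f f.injective

lemma Cov.of_card_lt {S : Type u} {χ σ ν : Cardinal.{u}} (hS : #S < χ) (hσ : 2 ≤ σ)
    (hν : 1 ≤ ν) : Cov S χ σ ν := by
  refine ⟨{Set.univ}, by rw [mk_singleton]; exact hν, ?_,
    fun b _ => ⟨{Set.univ}, subset_rfl, ?_, ?_⟩⟩
  · intro x hx
    rw [mem_singleton_iff.1 hx, mk_univ]; exact hS
  · rw [mk_singleton]; exact lt_of_lt_of_le one_lt_two hσ
  · simp

/-- The limit step: covering families below `μ` give one for `μ` unless the cofinality is `κ`. -/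
lemma Cov.limit {κ ν μ : Cardinal.{u}} (hκ : κ.IsRegular) (hμ : ℵ₀ ≤ μ) (hν : μ ≤ ν)
    (hcof : μ.ord.cof ≠ κ) (h : ∀ μ' < μ, Cov μ'.out (succ κ) κ ν) :
    Cov μ.out (succ κ) κ ν := by
  have hS : #(μ.ord.ToType) = μ := by simp
  have hI : ∀ a : μ.ord.ToType, Cov (Iio a) (succ κ) κ ν := by
    intro a
    have ha : #(Iio a) < μ := by
      have := mk_Iio_lt a (by rw [hS, type_toType])
      rwa [hS] at this
    exact (h _ ha).of_embedding (Cardinal.outMkEquiv.symm) (Equiv.injective _)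
  choose X h1 h2 h3 using hI
  have key : Cov μ.ord.ToType (succ κ) κ ν := by
    refine ⟨⋃ a, (fun x : Set (Iio a) => (Subtype.val '' x)) '' X a, ?_, ?_, ?_⟩
    · calc #(⋃ a, (fun x : Set (Iio a) => (Subtype.val '' x)) '' X a)
          ≤ Cardinal.sum (fun a => #((fun x : Set (Iio a) => (Subtype.val '' x)) '' X a)) :=
            mk_iUnion_le_sum_mk
        _ ≤ Cardinal.sum (fun _ : μ.ord.ToType => ν) :=
            sum_le_sum _ _ (fun a => mk_image_le.trans (h1 a))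
        _ = μ * ν := by rw [sum_const', hS]
        _ ≤ ν * ν := mul_le_mul_left hν ν
        _ = ν := mul_eq_self (hμ.trans hν)
    · intro y hy
      obtain ⟨a, x, hx, rfl⟩ := mem_iUnion.1 hy
      exact mk_image_le.trans_lt (h2 a x hx)
    · intro b hb
      have loc : ∀ a, ∃ Q ⊆ (fun x : Set (Iio a) => (Subtype.val '' x)) '' X a,
          #Q < κ ∧ b ∩ Iio a ⊆ ⋃₀ Q := by
        intro a
        obtain ⟨Q, q1, q2, q3⟩ := h3 a (Subtype.val ⁻¹' b)
          ((mk_preimage_of_injective _ _ Subtype.val_injective).trans_lt hb)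
        refine ⟨(fun x => Subtype.val '' x) '' Q, image_mono q1, mk_image_le.trans_lt q2, ?_⟩
        rintro x ⟨hx, hxa⟩
        obtain ⟨q, hq, hq'⟩ := q3 (show (⟨x, hxa⟩ : Iio a) ∈ Subtype.val ⁻¹' b from hx)
        exact ⟨Subtype.val '' q, mem_image_of_mem _ hq, ⟨_, hq', rfl⟩⟩
      rcases lt_or_gt_of_ne hcof with hlt | hgt
      · obtain ⟨C, hC, hCc⟩ := Order.exists_cof_eq μ.ord.ToType
        rw [cof_toType] at hCc
        choose Q q1 q2 q3 using loc
        refine ⟨⋃ c : C, Q c, ?_, ?_, ?_⟩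
        · exact iUnion_subset fun c => (q1 c).trans (subset_iUnion_of_subset c.1 subset_rfl)
        · rw [card_iUnion_lt_iff_forall_of_isRegular hκ (hCc.trans_lt hlt)]
          exact fun c => q2 c
        · intro x hx
          have : NoMaxOrder μ.ord.ToType := Cardinal.noMaxOrder hμ
          obtain ⟨y, hy⟩ := exists_gt x
          obtain ⟨c, hc, hyc⟩ := hC y
          obtain ⟨q, hq, hq'⟩ := q3 c ⟨hx, hy.trans_le hyc⟩
          exact ⟨q, mem_iUnion.2 ⟨⟨c, hc⟩, hq⟩, hq'⟩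
      · have hnc : ¬ IsCofinal b := by
          intro hb'
          have := Order.cof_le hb'
          rw [cof_toType] at this
          exact absurd (hgt.trans_le this) (not_lt.2 (lt_succ_iff.1 hb))
        unfold IsCofinal at hnc
        push Not at hnc
        obtain ⟨a, ha⟩ := hnc
        obtain ⟨Q, q1, q2, q3⟩ := loc a
        refine ⟨Q, q1.trans (subset_iUnion_of_subset a subset_rfl), q2, ?_⟩
        intro x hx
        exact q3 ⟨hx, ha x hx⟩
  have e : #μ.out = #(μ.ord.ToType) := by rw [mk_out, hS]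
  obtain ⟨e⟩ := Cardinal.eq.1 e
  exact key.of_embedding e e.injective

lemma two_le {κ : Cardinal.{u}} (hκ : κ.IsRegular) : 2 ≤ κ :=
  (hκ.nat_lt 2).le

/-- The least `μ` whose covering number exceeds `lam` is singular of cofinality `κ`. -/
lemma exists_singular {κ lam : Cardinal.{u}} (hκ : κ.IsRegular)
    (h : lam < cov lam (succ κ) (succ κ) κ) (hl : ℵ₀ ≤ lam) :
    ∃ μ : Cardinal.{u}, μ.IsSingular ∧ μ.ord.cof = κ ∧ μ ≤ lam ∧
      lam < cov μ (succ κ) (succ κ) κ := by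
  have h2 := two_le hκ
  let A := {μ : Cardinal.{u} | lam < cov μ (succ κ) (succ κ) κ}
  have hA : A.Nonempty := ⟨lam, h⟩
  have hμ : lam < cov (sInf A) (succ κ) (succ κ) κ := csInf_mem hA
  have hle : sInf A ≤ lam := csInf_le' h
  have hmin : ∀ μ' < sInf A, cov μ' (succ κ) (succ κ) κ ≤ lam := fun μ' hμ' =>
    not_lt.1 fun hh => absurd (csInf_le' (show μ' ∈ A from hh)) (not_le.2 hμ')
  have hκμ : κ < sInf A := by
    by_contra hc
    rw [not_lt] at hc
    refine absurd ((cov_le_iff h2).2 (Cov.of_card_lt ?_ h2 ?_)) (not_le.2 hμ)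
    · rw [mk_out]; exact hc.trans_lt (lt_succ κ)
    · exact one_le_aleph0.trans hl
  have hinf : ℵ₀ ≤ sInf A := hκ.aleph0_le.trans hκμ.le
  have hcof : (sInf A).ord.cof = κ := by
    by_contra hc
    exact absurd ((cov_le_iff h2).2 (Cov.limit hκ hinf hle hc
      fun μ' h' => (cov_le_iff h2).1 (hmin μ' h'))) (not_le.2 hμ)
  exact ⟨sInf A, ⟨hinf, by rw [hcof]; exact hκμ.ne⟩, hcof, hle, hμ⟩

lemma isRevision_iff {κ lam : Cardinal.{u}} (hκ : κ.IsRegular) :
    IsRevision lam (succ κ) ↔ cov lam (succ κ) (succ κ) κ ≤ lam := by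
  have h2 := two_le hκ
  constructor
  · rintro ⟨σ, hσ, hσ2, h⟩
    rw [cov_le_iff h2]
    exact ((cov_le_iff hσ2).1 h).mono (lt_succ_iff.1 hσ) le_rfl
  · intro h
    exact ⟨κ, lt_succ κ, h2, h⟩

/-- `κ⁺` fails to be a `lam`-revision cardinal if and only if `lam` lies between some singular
cardinal of cofinality `κ` and its covering number. -/
lemma exc_iff {κ lam : Cardinal.{u}} (hl : ℵ₀ ≤ lam) :
    (κ.IsRegular ∧ κ < lam ∧ ¬ IsRevision lam (succ κ)) ↔
      ∃ μ : Cardinal.{u}, μ.IsSingular ∧ μ.ord.cof = κ ∧ μ ≤ lam ∧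
        lam < cov μ (succ κ) (succ κ) κ := by
  constructor
  · rintro ⟨h1, _, h3⟩
    rw [isRevision_iff h1, not_le] at h3
    exact exists_singular h1 h3 hl
  · rintro ⟨μ, h1, rfl, h3, h4⟩
    have hr : (μ.ord.cof).IsRegular := isRegular_cof (isSuccLimit_ord h1.aleph0_le)
    refine ⟨hr, h1.cof_ord_lt.trans_le h3, ?_⟩
    rw [isRevision_iff hr, not_le]
    exact h4.trans_le (cov_mono_left h3 (two_le hr))

lemma exists_strictMono_subseq {h : ℕ → Cardinal.{u}} (hh : Function.Injective h) :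
    ∃ g : ℕ ↪o ℕ, StrictMono (h ∘ g) := by
  obtain ⟨g, hg | hg⟩ := exists_increasing_or_nonincreasing_subseq (· < ·) h
  · exact ⟨g, fun m n hmn => hg m n hmn⟩
  · exfalso
    have : StrictAnti (h ∘ g) := by
      intro m n hmn
      have h1 := hg m n hmn
      rcases lt_trichotomy (h (g m)) (h (g n)) with h2 | h2 | h2
      · exact absurd h2 h1
      · exact absurd (g.injective (hh h2)) hmn.ne
      · exact h2
    exact not_strictAnti_of_wellFoundedLT _ this

/-- Sequences in an infinite set of cardinals. -/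
lemma exists_seq {E : Set Cardinal.{u}} (hE : E.Infinite) (f : Cardinal.{u} → Cardinal.{u})
    (hf : InjOn f E) :
    ∃ κ : ℕ → Cardinal.{u}, (∀ n, κ n ∈ E) ∧ StrictMono κ ∧ StrictMono (fun n => f (κ n)) := by
  let e := hE.natEmbedding E
  have he : Function.Injective (fun n => (e n : Cardinal.{u})) :=
    Subtype.val_injective.comp e.injective
  obtain ⟨g, hg⟩ := exists_strictMono_subseq he
  have hf2 : Function.Injective (fun n => f (e (g n))) := by
    intro m n hmn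
    exact g.injective (he (hf (e (g m)).2 (e (g n)).2 hmn))
  obtain ⟨g2, hg2⟩ := exists_strictMono_subseq hf2
  exact ⟨fun n => e (g (g2 n)), fun n => (e (g (g2 n))).2, fun m n hmn => hg (g2.strictMono hmn),
    hg2⟩

lemma cof_iSup_nat {μ : ℕ → Cardinal.{u}} (hμ : StrictMono μ) : (⨆ m, μ m).ord.cof = ℵ₀ := by
  rw [iSup_ord]
  have h : StrictMono (fun m => (μ m).ord) := fun m n hmn => ord_lt_ord.2 (hμ hmn)
  have := Ordinal.lift_cof_iSup h
  simpa using this

end Pool.Agent.H7.REV
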