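import Mathlib
import Pool.Agent.H7.REV.Core

/-!
# Covering numbers: uniform covering below a limit cardinal
-/

set_option autoImplicit false

open Cardinal Ordinal Set Order

universe u

namespace Pool.Agent.H7.REV

lemma exists_Iio {θ θ₁ : Cardinal.{u}} (h : θ₁ < θ) : ∃ a : θ.ord.ToType, #(Iio a) = θ₁ := by
  have h1 : θ₁.ord < type (α := θ.ord.ToType) (· < ·) := by
    rw [type_toType]; exact ord_lt_ord.2 h
  refine ⟨enum (α := θ.ord.ToType) (· < ·) ⟨θ₁.ord, h1⟩, ?_⟩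
  have h2 := card_typein (r := ((· < ·) : θ.ord.ToType → θ.ord.ToType → Prop))
    (enum (α := θ.ord.ToType) (· < ·) ⟨θ₁.ord, h1⟩)
  rw [typein_enum, card_ord] at h2
  exact h2.symm

lemma Cov.embed {S T : Type u} {χ σ ν : Cardinal.{u}} (hST : #S ≤ #T) (h : Cov T χ σ ν) :
    Cov S χ σ ν := by
  obtain ⟨f⟩ := (Cardinal.le_def _ _).1 hST
  exact h.of_embedding f f.injective

/-- Covering families for all smaller cardinals give one family. -/
lemma Cov.gather {S : Type u} {σ θ lam : Cardinal.{u}} (hl : ℵ₀ ≤ lam) (hθ : θ ≤ lam)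
    (hσθ : σ < θ) (IH : ∀ θ₁ < θ, σ ≤ θ₁ → Cov S (succ θ₁) σ lam) : Cov S θ σ lam := by
  have hI : ∀ a : θ.ord.ToType, ∃ X : Set (Set S), #X ≤ lam ∧ (∀ x ∈ X, #x < θ) ∧
      (σ ≤ #(Iio a) → ∀ b : Set S, #b ≤ #(Iio a) → ∃ Q ⊆ X, #Q < σ ∧ b ⊆ ⋃₀ Q) := by
    intro a
    have ha : #(Iio a) < θ := by
      have := mk_Iio_lt a (by rw [mk_toType, card_ord, type_toType])
      rwa [mk_toType, card_ord] at this
    by_cases h : σ ≤ #(Iio a)
    · obtain ⟨X, h1, h2, h3⟩ := IH _ ha h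
      exact ⟨X, h1, fun x hx => (lt_succ_iff.1 (h2 x hx)).trans_lt ha,
        fun _ b hb => h3 b (lt_succ_iff.2 hb)⟩
    · exact ⟨∅, by simp, by simp, fun h' => absurd h' h⟩
  choose X h1 h2 h3 using hI
  refine ⟨⋃ a, X a, ?_, ?_, ?_⟩
  · calc #(⋃ a, X a) ≤ Cardinal.sum (fun a => #(X a)) := mk_iUnion_le_sum_mk
      _ ≤ Cardinal.sum (fun _ : θ.ord.ToType => lam) := sum_le_sum _ _ h1
      _ = θ * lam := by rw [sum_const', mk_toType, card_ord]
      _ ≤ lam * lam := mul_le_mul_left hθ lam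
      _ = lam := mul_eq_self hl
  · intro x hx
    obtain ⟨a, ha⟩ := mem_iUnion.1 hx
    exact h2 a x ha
  · intro b hb
    obtain ⟨a, ha⟩ := exists_Iio (max_lt hb hσθ)
    obtain ⟨Q, q1, q2, q3⟩ := h3 a (by rw [ha]; exact le_max_right _ _) b
      (by rw [ha]; exact le_max_left _ _)
    exact ⟨Q, q1.trans (subset_iUnion_of_subset a subset_rfl), q2, q3⟩

/-- Two successive coverings. -/
lemma Cov.compose {S : Type u} {σ θ lam : Cardinal.{u}} (hS : lam ≤ #S) (hinf : ℵ₀ ≤ θ)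
    (h1 : Cov S (succ θ) θ lam) (h2 : Cov S θ σ lam) : Cov S (succ θ) σ lam := by
  obtain ⟨X, x1, x2, x3⟩ := h1
  obtain ⟨Z, z1, z2, z3⟩ := h2.embed (S := X) (x1.trans hS)
  refine ⟨(fun z : Set X => ⋃₀ (Subtype.val '' z)) '' Z, mk_image_le.trans z1, ?_, ?_⟩
  · rintro _ ⟨z, hz, rfl⟩
    rw [lt_succ_iff]
    calc #(⋃₀ (Subtype.val '' z)) = #(⋃ i : z, (i.1.1 : Set S)) := by
          rw [sUnion_image]; congr 1; rw [biUnion_eq_iUnion]
      _ ≤ Cardinal.sum (fun i : z => #(i.1.1 : Set S)) := mk_iUnion_le_sum_mk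
      _ ≤ Cardinal.sum (fun _ : z => θ) :=
          sum_le_sum _ _ fun i => lt_succ_iff.1 (x2 _ i.1.2)
      _ = #z * θ := by rw [sum_const']
      _ ≤ θ * θ := mul_le_mul_left (z2 z hz).le θ
      _ = θ := mul_eq_self hinf
  · intro b hb
    obtain ⟨Q, q1, q2, q3⟩ := x3 b hb
    obtain ⟨W, w1, w2, w3⟩ := z3 (Subtype.val ⁻¹' Q)
      ((mk_preimage_of_injective _ _ Subtype.val_injective).trans_lt q2)
    refine ⟨(fun z : Set X => ⋃₀ (Subtype.val '' z)) '' W, image_mono w1,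
      mk_image_le.trans_lt w2, ?_⟩
    intro x hx
    obtain ⟨q, hq, hxq⟩ := q3 hx
    obtain ⟨z, hz, hz'⟩ := w3 (show (⟨q, q1 hq⟩ : X) ∈ Subtype.val ⁻¹' Q from hq)
    exact ⟨_, mem_image_of_mem _ hz, q, ⟨_, hz', rfl⟩, hxq⟩

/-- A set of singular cardinality is a small union of small sets. -/
lemma exists_split {B : Type u} {θ : Cardinal.{u}} (hθ : θ.IsSingular) (hB : #B ≤ θ) :
    ∃ (J : Type u) (t : J → Set B), #J < θ ∧ (∀ j, #(t j) < θ) ∧ ∀ x, ∃ j, x ∈ t j := by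
  obtain ⟨f⟩ : Nonempty (B ↪ θ.ord.ToType) := by
    rw [← Cardinal.le_def, mk_toType, card_ord]; exact hB
  obtain ⟨C, hC, hCc⟩ := Order.exists_cof_eq θ.ord.ToType
  rw [cof_toType] at hCc
  refine ⟨C, fun c => f ⁻¹' (Iio c.1), ?_, ?_, ?_⟩
  · rw [hCc]; exact hθ.cof_ord_lt
  · intro c
    have := mk_Iio_lt c.1 (by rw [mk_toType, card_ord, type_toType])
    rw [mk_toType, card_ord] at this
    exact (mk_preimage_of_injective f _ f.injective).trans_lt this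
  · intro x
    have : NoMaxOrder θ.ord.ToType := Cardinal.noMaxOrder hθ.aleph0_le
    obtain ⟨y, hy⟩ := exists_gt (f x)
    obtain ⟨c, hc, hyc⟩ := hC y
    exact ⟨⟨c, hc⟩, hy.trans_le hyc⟩

/-- The singular step. -/
lemma Cov.singular {S : Type u} {σ θ lam : Cardinal.{u}} (hθ : θ.IsSingular) (hσθ : σ < θ)
    (h : Cov S θ σ lam) : Cov S (succ θ) θ lam := by
  obtain ⟨X, x1, x2, x3⟩ := h
  refine ⟨X, x1, fun x hx => (x2 x hx).trans (lt_succ θ), ?_⟩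
  intro b hb
  obtain ⟨J, t, t1, t2, t3⟩ := exists_split (B := b) hθ (lt_succ_iff.1 hb)
  have hQ : ∀ j, ∃ Q ⊆ X, #Q < σ ∧ Subtype.val '' (t j) ⊆ ⋃₀ Q := fun j =>
    x3 _ (mk_image_le.trans_lt (t2 j))
  choose Q q1 q2 q3 using hQ
  refine ⟨⋃ j, Q j, iUnion_subset q1, ?_, ?_⟩
  · calc #(⋃ j, Q j) ≤ Cardinal.sum (fun j => #(Q j)) := mk_iUnion_le_sum_mk
      _ ≤ Cardinal.sum (fun _ : J => σ) := sum_le_sum _ _ fun j => (q2 j).le
      _ = #J * σ := by rw [sum_const']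
      _ < θ := mul_lt_of_lt hθ.aleph0_le t1 hσθ
  · intro x hx
    obtain ⟨j, hj⟩ := t3 ⟨x, hx⟩
    obtain ⟨q, hq, hq'⟩ := q3 j ⟨_, hj, rfl⟩
    exact ⟨q, mem_iUnion.2 ⟨j, hq⟩, hq'⟩

/-- Uniform covering. -/
theorem Cov.uniform {S : Type u} {σ χ lam : Cardinal.{u}} (hS : #S = lam) (hσ : σ.IsRegular)
    (hχ : χ ≤ lam) (h : ∀ κ : Cardinal.{u}, κ.IsRegular → σ ≤ κ → κ < χ → Cov S (succ κ) κ lam) :
    ∀ θ : Cardinal.{u}, σ ≤ θ → θ < χ → Cov S (succ θ) σ lam := by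
  intro θ
  induction θ using Cardinal.lt_wf.induction with
  | _ θ ih =>
    intro h1 h2
    rcases eq_or_lt_of_le h1 with h3 | h3
    · subst h3
      exact h _ hσ le_rfl h2
    · have hinf : ℵ₀ ≤ θ := hσ.aleph0_le.trans h1
      have hl : ℵ₀ ≤ lam := hinf.trans (h2.le.trans hχ)
      have hg : Cov S θ σ lam := Cov.gather hl (h2.le.trans hχ) h3
        fun θ₁ h4 h5 => ih θ₁ h4 h5 (h4.trans h2)
      refine Cov.compose hS.ge hinf ?_ hg
      rcases isRegular_or_isSingular hinf with h6 | h6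
      · exact h θ h6 h1 h2
      · exact Cov.singular h6 h3 hg

/-- The converse: a covering by few sets of size less than `χ` can be refined. -/
lemma Cov.refine_of {S : Type u} {σ χ κ lam : Cardinal.{u}} (hl : ℵ₀ ≤ lam) (hκ : κ.IsRegular)
    (hσκ : σ ≤ κ) (hκχ : κ < χ) (h : Cov S χ σ lam)
    (hs : ∀ A : Set S, #A < χ → Cov A (succ κ) κ lam) : Cov S (succ κ) κ lam := by
  obtain ⟨X, x1, x2, x3⟩ := h
  have hX : ∀ A : X, Cov (A.1 : Set S) (succ κ) κ lam := fun A => hs A.1 (x2 _ A.2)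
  choose Y y1 y2 y3 using hX
  refine ⟨⋃ A : X, (fun y : Set A.1 => (Subtype.val '' y : Set S)) '' Y A, ?_, ?_, ?_⟩
  · calc #(⋃ A : X, (fun y : Set A.1 => (Subtype.val '' y : Set S)) '' Y A)
        ≤ Cardinal.sum (fun A : X => #((fun y : Set A.1 => (Subtype.val '' y : Set S)) '' Y A)) :=
          mk_iUnion_le_sum_mk
      _ ≤ Cardinal.sum (fun _ : X => lam) := sum_le_sum _ _ fun A => mk_image_le.trans (y1 A)
      _ = #X * lam := by rw [sum_const']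
      _ ≤ lam * lam := mul_le_mul_left x1 lam
      _ = lam := mul_eq_self hl
  · intro x hx
    obtain ⟨A, y, hy, rfl⟩ := mem_iUnion.1 hx
    exact mk_image_le.trans_lt (y2 A y hy)
  · intro b hb
    obtain ⟨Q, q1, q2, q3⟩ := x3 b ((lt_succ_iff.1 hb).trans_lt hκχ)
    have hW : ∀ A : Q, ∃ W ⊆ (fun y : Set A.1 => (Subtype.val '' y : Set S)) '' Y ⟨A.1, q1 A.2⟩,
        #W < κ ∧ b ∩ A.1 ⊆ ⋃₀ W := by
      intro A
      obtain ⟨W, w1, w2, w3⟩ := y3 ⟨A.1, q1 A.2⟩ (Subtype.val ⁻¹' b)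
        ((mk_preimage_of_injective _ _ Subtype.val_injective).trans_lt hb)
      refine ⟨(fun y : Set A.1 => (Subtype.val '' y : Set S)) '' W, image_mono w1,
        mk_image_le.trans_lt w2, ?_⟩
      rintro x ⟨hx, hxA⟩
      obtain ⟨w, hw, hw'⟩ := w3 (show (⟨x, hxA⟩ : A.1) ∈ Subtype.val ⁻¹' b from hx)
      exact ⟨_, mem_image_of_mem _ hw, _, hw', rfl⟩
    choose W w1 w2 w3 using hW
    refine ⟨⋃ A : Q, W A, ?_, ?_, ?_⟩
    · exact iUnion_subset fun A => (w1 A).trans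
        (subset_iUnion_of_subset ⟨A.1, q1 A.2⟩ subset_rfl)
    · rw [card_iUnion_lt_iff_forall_of_isRegular hκ (q2.trans_le hσκ)]
      exact w2
    · intro x hx
      obtain ⟨A, hA, hxA⟩ := q3 hx
      obtain ⟨w, hw, hw'⟩ := w3 ⟨A, hA⟩ ⟨hx, hxA⟩
      exact ⟨w, mem_iUnion.2 ⟨⟨A, hA⟩, hw⟩, hw'⟩

end Pool.Agent.H7.REV
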