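import Mathlib
import Pool.Agent.H7.REV.Unif

/-!
# Exceptional cardinals
-/

set_option autoImplicit false

open Cardinal Ordinal Set Order

universe u

namespace Pool.Agent.H7.REV

/-- The exceptional cardinals for `lam`: the regular `κ < lam` such that `κ⁺` is not a
`lam`-revision cardinal. -/
def Exc (lam : Cardinal.{u}) : Set Cardinal.{u} :=
  {κ | κ.IsRegular ∧ κ < lam ∧ ¬ IsRevision lam (succ κ)}

/-- The exceptional cardinals below `χ` for `lam`: the regular `κ < χ` such that `κ⁺` is not a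
`lam`-revision cardinal. -/
def ExcBelow (χ lam : Cardinal.{u}) : Set Cardinal.{u} :=
  {κ | κ.IsRegular ∧ κ < χ ∧ ¬ IsRevision lam (succ κ)}

/-- For some `σ < χ` and all `θ` with `σ ≤ θ < χ`, some family of at most `lam` subsets of `lam` of
size at most `θ` covers each subset of size at most `θ` by fewer than `σ` members. -/
def UniformlyCovered (lam χ : Cardinal.{u}) : Prop :=
  ∃ σ < χ, 2 ≤ σ ∧ ∀ θ < χ, σ ≤ θ → cov lam (succ θ) (succ θ) σ ≤ lam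

/-- The members of `E` below `χ` are bounded below `χ`. -/
def BoundedIn (E : Set Cardinal.{u}) (χ : Cardinal.{u}) : Prop :=
  ∃ σ₀ < χ, ∀ κ ∈ E, κ < χ → κ < σ₀

lemma uniform_of_bounded {χ lam : Cardinal.{u}} (hχ : IsSuccLimit χ) (h0 : ℵ₀ < χ)
    (hl : χ ≤ lam) (h : BoundedIn (Exc lam) χ) :
    ∃ σ < χ, σ.IsRegular ∧ (∀ θ < χ, σ ≤ θ → cov lam (succ θ) (succ θ) σ ≤ lam) ∧
      cov lam χ χ σ ≤ lam := by
  obtain ⟨σ₀, h1, h2⟩ := h
  have hm : max σ₀ ℵ₀ < χ := max_lt h1 h0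
  have hσ : succ (max σ₀ ℵ₀) < χ := hχ.succ_lt hm
  have hr : (succ (max σ₀ ℵ₀)).IsRegular := isRegular_succ (le_max_right _ _)
  have hC : ∀ κ : Cardinal.{u}, κ.IsRegular → succ (max σ₀ ℵ₀) ≤ κ → κ < χ →
      Cov lam.out (succ κ) κ lam := by
    intro κ k1 k2 k3
    have : IsRevision lam (succ κ) := by
      by_contra hn
      have := h2 κ ⟨k1, k3.trans_le hl, hn⟩ k3
      exact absurd ((lt_succ _).trans_le k2) (not_lt.2 (this.le.trans (le_max_left _ _)))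
    exact (cov_le_iff (two_le k1)).1 ((isRevision_iff k1).1 this)
  have hU := Cov.uniform (mk_out lam) hr hl hC
  refine ⟨_, hσ, hr, fun θ t1 t2 => (cov_le_iff (two_le hr)).2 (hU θ t2 t1), ?_⟩
  exact (cov_le_iff (two_le hr)).2
    (Cov.gather (h0.le.trans hl) hl hσ fun θ₁ t1 t2 => hU θ₁ t2 t1)

lemma bounded_of_uniform {χ lam : Cardinal.{u}}
    (h : ∃ σ < χ, 2 ≤ σ ∧ ∀ θ < χ, σ ≤ θ → cov lam (succ θ) (succ θ) σ ≤ lam) :
    BoundedIn (Exc lam) χ := by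
  obtain ⟨σ, h1, h2, h3⟩ := h
  refine ⟨σ, h1, fun κ hκ hκχ => ?_⟩
  by_contra hn
  rw [not_lt] at hn
  exact hκ.2.2 ⟨σ, hn.trans_lt (lt_succ κ), h2, h3 κ hκχ hn⟩

lemma Cov.of_powerset {S : Type u} {χ σ ν : Cardinal.{u}} (hS : 2 ^ #S ≤ ν) (hσ : 2 ≤ σ) :
    Cov S χ σ ν := by
  have h : ∀ b : Set S, #b < χ → ∃ Q ⊆ {x : Set S | #x < χ}, #Q < σ ∧ b ⊆ ⋃₀ Q := by
    intro b hb
    refine ⟨{b}, ?_, ?_, ?_⟩
    · simpa using hb
    · rw [mk_singleton]; exact lt_of_lt_of_le one_lt_two hσ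
    · simp
  exact ⟨{x : Set S | #x < χ}, (mk_set_le _).trans (by rw [mk_set]; exact hS),
    fun x hx => hx, h⟩

lemma bounded_of_revision {χ lam : Cardinal.{u}} (h0 : ℵ₀ < χ) (hl : χ ≤ lam)
    (hp : ∀ θ < χ, 2 ^ θ ≤ lam) (h : IsRevision lam χ) : BoundedIn (Exc lam) χ := by
  obtain ⟨σ, h1, h2, h3⟩ := h
  refine ⟨σ, h1, fun κ hκ hκχ => ?_⟩
  by_contra hn
  rw [not_lt] at hn
  have : Cov lam.out (succ κ) κ lam :=
    Cov.refine_of (h0.le.trans hl) hκ.1 hn hκχ ((cov_le_iff h2).1 h3)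
      (fun A hA => Cov.of_powerset (hp _ hA) (two_le hκ.1))
  exact hκ.2.2 ((isRevision_iff hκ.1).2 ((cov_le_iff (two_le hκ.1)).2 this))

lemma singular_of_cof {τ : Cardinal.{u}} (h0 : ℵ₀ < τ) (hc : τ.ord.cof = ℵ₀) : τ.IsSingular :=
  ⟨h0.le, by rw [hc]; exact h0.ne⟩

lemma finite_iff_bounded {E : Set Cardinal.{u}} (hE : ∀ κ ∈ E, ℵ₀ ≤ κ) {χ : Cardinal.{u}} :
    (E ∩ Iio χ).Finite ↔
      ∀ τ : Cardinal.{u}, ℵ₀ < τ → τ ≤ χ → τ.ord.cof = ℵ₀ → BoundedIn E τ := by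
  constructor
  · intro hf τ h1 h2 h3
    have hf' : (E ∩ Iio τ).Finite := hf.subset fun x hx => ⟨hx.1, lt_of_lt_of_le hx.2 h2⟩
    rcases (E ∩ Iio τ).eq_empty_or_nonempty with he | hne
    · refine ⟨0, aleph0_pos.trans h1, fun κ hκ hκτ => ?_⟩
      have : κ ∈ E ∩ Iio τ := ⟨hκ, hκτ⟩
      rw [he] at this
      exact absurd this (notMem_empty κ)
    · obtain ⟨m, hm, hmax⟩ := Set.exists_max_image (E ∩ Iio τ) id hf' hne
      exact ⟨succ m, (singular_of_cof h1 h3).isSuccLimit.succ_lt hm.2,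
        fun κ hκ hκτ => lt_succ_iff.2 (hmax κ ⟨hκ, hκτ⟩)⟩
  · intro h
    by_contra hinf
    obtain ⟨κ, k1, k2, -⟩ := exists_seq (E := E ∩ Iio χ) hinf id (injOn_id _)
    have hb : BddAbove (range κ) := Cardinal.bddAbove_of_small
    have hlt : ∀ n, κ n < ⨆ m, κ m := fun n =>
      (k2 (Nat.lt_succ_self n)).trans_le (le_ciSup hb (n + 1))
    obtain ⟨σ₀, s1, s2⟩ := h (⨆ m, κ m) ((hE _ (k1 0).1).trans_lt (hlt 0))
      (ciSup_le' fun n => (k1 n).2.le) (cof_iSup_nat k2)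
    obtain ⟨n, hn⟩ := exists_lt_of_lt_ciSup' s1
    exact absurd (s2 _ (k1 n).1 (hlt n)) (not_lt.2 hn.le)

/-- The covering number at a singular cardinal. -/
noncomputable def covCof (μ : Cardinal.{u}) : Cardinal.{u} :=
  cov μ (succ μ.ord.cof) (succ μ.ord.cof) μ.ord.cof

lemma mem_exc_iff {κ lam : Cardinal.{u}} (hl : ℵ₀ ≤ lam) :
    κ ∈ Exc lam ↔ ∃ μ : Cardinal.{u}, μ.IsSingular ∧ μ.ord.cof = κ ∧ μ ≤ lam ∧
      lam < covCof μ := by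
  unfold Exc covCof
  rw [mem_ofPred_eq, exc_iff hl]
  constructor
  · rintro ⟨μ, h1, rfl, h3, h4⟩
    exact ⟨μ, h1, rfl, h3, h4⟩
  · rintro ⟨μ, h1, rfl, h3, h4⟩
    exact ⟨μ, h1, rfl, h3, h4⟩

lemma exists_bad {lam : Cardinal.{u}} (hl : ℵ₀ ≤ lam) {D : Set Cardinal.{u}}
    (hD : D ⊆ Exc lam) (hinf : D.Infinite) :
    ∃ μ : ℕ → Cardinal.{u}, StrictMono μ ∧ StrictMono (fun n => (μ n).ord.cof) ∧
      ∀ n, (μ n).IsSingular ∧ (μ n).ord.cof ∈ D ∧ μ n ≤ lam ∧ lam < covCof (μ n) := by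
  have hf : ∀ κ : Cardinal.{u}, ∃ μ : Cardinal.{u}, κ ∈ D →
      (μ.IsSingular ∧ μ.ord.cof = κ ∧ μ ≤ lam ∧ lam < covCof μ) := by
    intro κ
    by_cases h : κ ∈ D
    · obtain ⟨μ, hμ⟩ := (mem_exc_iff hl).1 (hD h)
      exact ⟨μ, fun _ => hμ⟩
    · exact ⟨0, fun h' => absurd h' h⟩
  choose f hf using hf
  obtain ⟨κ, k1, k2, k3⟩ := exists_seq hinf f (fun a ha b hb hab => by
    rw [← (hf a ha).2.1, ← (hf b hb).2.1, hab])
  have e : ∀ n, (f (κ n)).ord.cof = κ n := fun n => (hf _ (k1 n)).2.1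
  refine ⟨fun n => f (κ n), k3, ?_, fun n => ?_⟩
  · intro m n hmn
    simp only [e]
    exact k2 hmn
  · obtain ⟨a, b, c, d⟩ := hf _ (k1 n)
    exact ⟨a, by rw [b]; exact k1 n, c, d⟩

/-- Infinitely many exceptional cardinals are exceptional for a smaller cardinal of countable
cofinality. -/
lemma exists_countable_cof {lam : Cardinal.{u}} (hl : ℵ₀ ≤ lam) {D : Set Cardinal.{u}}
    (hD : D ⊆ Exc lam) (hinf : D.Infinite) :
    ∃ lam' : Cardinal.{u}, lam' ≤ lam ∧ ℵ₀ < lam' ∧ lam'.ord.cof = ℵ₀ ∧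
      (D ∩ Exc lam').Infinite ∧ ∃ μ : ℕ → Cardinal.{u}, StrictMono μ ∧
        StrictMono (fun n => (μ n).ord.cof) ∧ lam' = ⨆ n, μ n ∧
        ∀ n, (μ n).IsSingular ∧ (μ n).ord.cof ∈ D ∧ lam < covCof (μ n) := by
  obtain ⟨μ, m1, m2, m3⟩ := exists_bad hl hD hinf
  have hb : BddAbove (range μ) := Cardinal.bddAbove_of_small
  have hlt : ∀ n, μ n < ⨆ m, μ m := fun n =>
    (m1 (Nat.lt_succ_self n)).trans_le (le_ciSup hb (n + 1))
  have h0 : ℵ₀ < ⨆ m, μ m := (m3 0).1.aleph0_le.trans_lt (hlt 0)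
  have hle : ⨆ m, μ m ≤ lam := ciSup_le' fun n => (m3 n).2.2.1
  refine ⟨⨆ m, μ m, hle, h0, cof_iSup_nat m1, ?_, μ, m1, m2, rfl,
    fun n => ⟨(m3 n).1, (m3 n).2.1, (m3 n).2.2.2⟩⟩
  refine Set.Infinite.mono ?_ (Set.infinite_range_of_injective m2.injective)
  rintro _ ⟨n, rfl⟩
  refine ⟨(m3 n).2.1, (mem_exc_iff h0.le).2 ⟨μ n, (m3 n).1, rfl, (hlt n).le, ?_⟩⟩
  exact hle.trans_lt (m3 n).2.2.2

end Pool.Agent.H7.REV
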