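import Mathlib
import Pool.Agent.H7.REV.Main

/-!
# Singular revision cardinals
-/

set_option autoImplicit false

open Cardinal Ordinal Set Order

universe u

namespace Pool.Agent.H7.REV

/-- some family of at most `ν` sets of size less than `χ` covers all sets of size less than `ρ`, with
less than `σ` members for each -/
def CovG (S : Type u) (χ ρ σ ν : Cardinal.{u}) : Prop :=
  ∃ X : Set (Set S), #X ≤ ν ∧ (∀ x ∈ X, #x < χ) ∧
    ∀ b : Set S, #b < ρ → ∃ Q ⊆ X, #Q < σ ∧ b ⊆ ⋃₀ Q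

lemma cov_le_iffG {lam χ ρ σ ν : Cardinal.{u}} (hσ : 2 ≤ σ) (hρ : ρ ≤ χ) :
    cov lam χ ρ σ ≤ ν ↔ CovG lam.out χ ρ σ ν := by
  have hne : {c | ∃ X : Set (Set lam.out), #X = c ∧ (∀ x ∈ X, #x < χ) ∧
    ∀ b : Set lam.out, #b < ρ → ∃ Q ⊆ X, #Q < σ ∧ b ⊆ ⋃₀ Q}.Nonempty := by
    have h : ∀ b : Set lam.out, #b < ρ →
        ∃ Q ⊆ {x : Set lam.out | #x < χ}, #Q < σ ∧ b ⊆ ⋃₀ Q := by
      intro b hb
      refine ⟨{b}, ?_, ?_, ?_⟩
      · have := hb.trans_le hρ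
        simpa using this
      · rw [mk_singleton]; exact lt_of_lt_of_le one_lt_two hσ
      · simp
    exact ⟨_, {x : Set lam.out | #x < χ}, rfl, fun x hx => hx, h⟩
  constructor
  · intro h
    obtain ⟨X, h1, h2, h3⟩ := csInf_mem hne
    exact ⟨X, h1.trans_le h, h2, h3⟩
  · rintro ⟨X, h1, h2, h3⟩
    unfold cov
    refine le_trans (csInf_le' (a := #X) ?_) h1
    exact ⟨X, rfl, h2, h3⟩

lemma CovG.of_embedding {S T : Type u} {χ ρ σ ν : Cardinal.{u}} (f : S → T)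
    (hf : Function.Injective f) (h : CovG T χ ρ σ ν) : CovG S χ ρ σ ν := by
  obtain ⟨X, h1, h2, h3⟩ := h
  refine ⟨(fun x => f ⁻¹' x) '' X, mk_image_le.trans h1, ?_, ?_⟩
  · rintro _ ⟨x, hx, rfl⟩
    exact (mk_preimage_of_injective f x hf).trans_lt (h2 x hx)
  · intro b hb
    obtain ⟨Q, hQ1, hQ2, hQ3⟩ := h3 (f '' b) (mk_image_le.trans_lt hb)
    refine ⟨(fun x => f ⁻¹' x) '' Q, image_mono hQ1, mk_image_le.trans_lt hQ2, ?_⟩
    intro x hx
    obtain ⟨q, hq, hq'⟩ := hQ3 (mem_image_of_mem f hx)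
    exact ⟨f ⁻¹' q, mem_image_of_mem _ hq, hq'⟩

lemma CovG.embed {S T : Type u} {χ ρ σ ν : Cardinal.{u}} (hST : #S ≤ #T)
    (h : CovG T χ ρ σ ν) : CovG S χ ρ σ ν := by
  obtain ⟨f⟩ := (Cardinal.le_def _ _).1 hST
  exact h.of_embedding f f.injective

lemma CovG.of_card_lt {S : Type u} {χ ρ σ ν : Cardinal.{u}} (hS : #S < χ) (hσ : 2 ≤ σ)
    (hν : 1 ≤ ν) : CovG S χ ρ σ ν := by
  refine ⟨{Set.univ}, by rw [mk_singleton]; exact hν, ?_,
    fun b _ => ⟨{Set.univ}, subset_rfl, ?_, ?_⟩⟩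
  · intro x hx
    rw [mem_singleton_iff.1 hx, mk_univ]; exact hS
  · rw [mk_singleton]; exact lt_of_lt_of_le one_lt_two hσ
  · simp

/-- The limit step. -/
lemma CovG.limit {κ ν μ χ : Cardinal.{u}} (hκ : κ.IsRegular) (hμ : ℵ₀ ≤ μ) (hν : μ ≤ ν)
    (hcof : μ.ord.cof ≠ κ) (h : ∀ μ' < μ, CovG μ'.out χ (succ κ) κ ν) :
    CovG μ.out χ (succ κ) κ ν := by
  have hS : #(μ.ord.ToType) = μ := by simp
  have hI : ∀ a : μ.ord.ToType, CovG (Iio a) χ (succ κ) κ ν := by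
    intro a
    have ha : #(Iio a) < μ := by
      have := mk_Iio_lt a (by rw [hS, type_toType])
      rwa [hS] at this
    exact (h _ ha).of_embedding (Cardinal.outMkEquiv.symm) (Equiv.injective _)
  choose X h1 h2 h3 using hI
  have key : CovG μ.ord.ToType χ (succ κ) κ ν := by
    refine ⟨⋃ a, (fun x : Set (Iio a) => (Subtype.val '' x)) '' X a, ?_, ?_, ?_⟩
    · calc #(⋃ a, (fun x : Set (Iio a) => (Subtype.val '' x)) '' X a)
          ≤ Cardinal.sum (fun a => #((fun x : Set (Iio a) => (Subtype.val '' x)) '' X a)) :=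
            mk_iUnion_le_sum_mk
        _ ≤ Cardinal.sum (fun _ : μ.ord.ToType => ν) :=
            sum_le_sum _ _ (fun a => mk_image_le.trans (h1 a))
        _ = μ * ν := by rw [sum_const', hS]
        _ ≤ ν * ν := mul_le_mul_left hν ν
        _ = ν := mul_eq_self (hμ.trans hν)
    · intro y hy
      obtain ⟨a, x, hx, rfl⟩ := mem_iUnion.1 hy
      exact mk_image_le.trans_lt (h2 a x hx)
    · intro b hb
      have loc : ∀ a, ∃ Q ⊆ (fun x : Set (Iio a) => (Subtype.val '' x)) '' X a,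
          #Q < κ ∧ b ∩ Iio a ⊆ ⋃₀ Q := by
        intro a
        obtain ⟨Q, q1, q2, q3⟩ := h3 a (Subtype.val ⁻¹' b)
          ((mk_preimage_of_injective _ _ Subtype.val_injective).trans_lt hb)
        refine ⟨(fun x => Subtype.val '' x) '' Q, image_mono q1, mk_image_le.trans_lt q2, ?_⟩
        rintro x ⟨hx, hxa⟩
        obtain ⟨q, hq, hq'⟩ := q3 (show (⟨x, hxa⟩ : Iio a) ∈ Subtype.val ⁻¹' b from hx)
        exact ⟨Subtype.val '' q, mem_image_of_mem _ hq, ⟨_, hq', rfl⟩⟩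
      rcases lt_or_gt_of_ne hcof with hlt | hgt
      · obtain ⟨C, hC, hCc⟩ := Order.exists_cof_eq μ.ord.ToType
        rw [cof_toType] at hCc
        choose Q q1 q2 q3 using loc
        refine ⟨⋃ c : C, Q c, ?_, ?_, ?_⟩
        · exact iUnion_subset fun c => (q1 c).trans (subset_iUnion_of_subset c.1 subset_rfl)
        · rw [card_iUnion_lt_iff_forall_of_isRegular hκ (hCc.trans_lt hlt)]
          exact fun c => q2 c
        · intro x hx
          have : NoMaxOrder μ.ord.ToType := Cardinal.noMaxOrder hμ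
          obtain ⟨y, hy⟩ := exists_gt x
          obtain ⟨c, hc, hyc⟩ := hC y
          obtain ⟨q, hq, hq'⟩ := q3 c ⟨hx, hy.trans_le hyc⟩
          exact ⟨q, mem_iUnion.2 ⟨⟨c, hc⟩, hq⟩, hq'⟩
      · have hnc : ¬ IsCofinal b := by
          intro hb'
          have := Order.cof_le hb'
          rw [cof_toType] at this
          exact absurd (hgt.trans_le this) (not_lt.2 (lt_succ_iff.1 hb))
        unfold IsCofinal at hnc
        push Not at hnc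
        obtain ⟨a, ha⟩ := hnc
        obtain ⟨Q, q1, q2, q3⟩ := loc a
        refine ⟨Q, q1.trans (subset_iUnion_of_subset a subset_rfl), q2, ?_⟩
        intro x hx
        exact q3 ⟨hx, ha x hx⟩
  have e : #μ.out = #(μ.ord.ToType) := by rw [mk_out, hS]
  obtain ⟨e⟩ := Cardinal.eq.1 e
  exact key.of_embedding e e.injective

lemma CovG.gather {S : Type u} {σ θ χ lam : Cardinal.{u}} (hl : ℵ₀ ≤ lam) (hθ : θ ≤ lam)
    (hσθ : σ < θ) (IH : ∀ θ₁ < θ, σ ≤ θ₁ → CovG S χ (succ θ₁) σ lam) : CovG S χ θ σ lam := by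
  have hI : ∀ a : θ.ord.ToType, ∃ X : Set (Set S), #X ≤ lam ∧ (∀ x ∈ X, #x < χ) ∧
      (σ ≤ #(Iio a) → ∀ b : Set S, #b ≤ #(Iio a) → ∃ Q ⊆ X, #Q < σ ∧ b ⊆ ⋃₀ Q) := by
    intro a
    have ha : #(Iio a) < θ := by
      have := mk_Iio_lt a (by rw [mk_toType, card_ord, type_toType])
      rwa [mk_toType, card_ord] at this
    by_cases h : σ ≤ #(Iio a)
    · obtain ⟨X, h1, h2, h3⟩ := IH _ ha h
      exact ⟨X, h1, h2, fun _ b hb => h3 b (lt_succ_iff.2 hb)⟩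
    · exact ⟨∅, by simp, by simp, fun h' => absurd h' h⟩
  choose X h1 h2 h3 using hI
  refine ⟨⋃ a, X a, ?_, ?_, ?_⟩
  · calc #(⋃ a, X a) ≤ Cardinal.sum (fun a => #(X a)) := mk_iUnion_le_sum_mk
      _ ≤ Cardinal.sum (fun _ : θ.ord.ToType => lam) := sum_le_sum _ _ h1
      _ = θ * lam := by rw [sum_const', mk_toType, card_ord]
      _ ≤ lam * lam := mul_le_mul_left hθ lam
      _ = lam := mul_eq_self hl
  · intro x hx
    obtain ⟨a, ha⟩ := mem_iUnion.1 hx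
    exact h2 a x ha
  · intro b hb
    obtain ⟨a, ha⟩ := exists_Iio (max_lt hb hσθ)
    obtain ⟨Q, q1, q2, q3⟩ := h3 a (by rw [ha]; exact le_max_right _ _) b
      (by rw [ha]; exact le_max_left _ _)
    exact ⟨Q, q1.trans (subset_iUnion_of_subset a subset_rfl), q2, q3⟩

/-- The singular step. -/
lemma CovG.singular {S : Type u} {σ θ χ lam : Cardinal.{u}} (hθ : θ.IsSingular) (hσθ : σ < θ)
    (h : CovG S χ θ σ lam) : CovG S χ (succ θ) θ lam := by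
  obtain ⟨X, x1, x2, x3⟩ := h
  refine ⟨X, x1, x2, ?_⟩
  intro b hb
  obtain ⟨J, t, t1, t2, t3⟩ := exists_split (B := b) hθ (lt_succ_iff.1 hb)
  have hQ : ∀ j, ∃ Q ⊆ X, #Q < σ ∧ Subtype.val '' (t j) ⊆ ⋃₀ Q := fun j =>
    x3 _ (mk_image_le.trans_lt (t2 j))
  choose Q q1 q2 q3 using hQ
  refine ⟨⋃ j, Q j, iUnion_subset q1, ?_, ?_⟩
  · calc #(⋃ j, Q j) ≤ Cardinal.sum (fun j => #(Q j)) := mk_iUnion_le_sum_mk
      _ ≤ Cardinal.sum (fun _ : J => σ) := sum_le_sum _ _ fun j => (q2 j).le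
      _ = #J * σ := by rw [sum_const']
      _ < θ := mul_lt_of_lt hθ.aleph0_le t1 hσθ
  · intro x hx
    obtain ⟨j, hj⟩ := t3 ⟨x, hx⟩
    obtain ⟨q, hq, hq'⟩ := q3 j ⟨_, hj, rfl⟩
    exact ⟨q, mem_iUnion.2 ⟨j, hq⟩, hq'⟩

/-- Two successive coverings by sets of size less than a singular cardinal. -/
lemma CovG.compose {S : Type u} {σ θ χ lam : Cardinal.{u}} (hl : ℵ₀ ≤ lam) (hS : lam ≤ #S)
    (hσ : σ.IsRegular) (hχ : χ.IsSingular) (hcf : χ.ord.cof < σ) (hχl : χ ≤ lam)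
    (h1 : CovG S χ (succ θ) θ lam) (h2 : CovG S χ θ σ lam) :
    CovG S χ (succ θ) σ lam := by
  obtain ⟨X, x1, x2, x3⟩ := h1
  obtain ⟨C, hC, hCc⟩ := Order.exists_cof_eq χ.ord.ToType
  rw [cof_toType] at hCc
  -- the members of `X` of size at most `#(Iio c)`
  let XX : C → Set (Set S) := fun c => {x | x ∈ X ∧ #x ≤ #(Iio c.1)}
  have hXX : ∀ c : C, CovG (XX c) χ θ σ lam := fun c =>
    h2.embed ((mk_le_mk_of_subset (fun x hx => hx.1)).trans (x1.trans hS))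
  have hC' : ∀ c : C, #(Iio c.1) < χ := by
    intro c
    have := mk_Iio_lt c.1 (by rw [mk_toType, card_ord, type_toType])
    rwa [mk_toType, card_ord] at this
  choose Z z1 z2 z3 using hXX
  refine ⟨⋃ c : C, (fun z : Set (XX c) => ⋃₀ (Subtype.val '' z)) '' Z c, ?_, ?_, ?_⟩
  · calc #(⋃ c : C, (fun z : Set (XX c) => ⋃₀ (Subtype.val '' z)) '' Z c)
        ≤ Cardinal.sum (fun c : C => #((fun z : Set (XX c) => ⋃₀ (Subtype.val '' z)) '' Z c)) :=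
          mk_iUnion_le_sum_mk
      _ ≤ Cardinal.sum (fun _ : C => lam) := sum_le_sum _ _ fun c => mk_image_le.trans (z1 c)
      _ = #C * lam := by rw [sum_const']
      _ ≤ lam * lam := mul_le_mul_left (hCc.le.trans (hχ.cof_ord_lt.le.trans hχl)) lam
      _ = lam := mul_eq_self hl
  · intro y hy
    obtain ⟨c, z, hz, rfl⟩ := mem_iUnion.1 hy
    calc #(⋃₀ (Subtype.val '' z)) = #(⋃ i : z, (i.1.1 : Set S)) := by
          rw [sUnion_image]; congr 1; rw [biUnion_eq_iUnion]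
      _ ≤ Cardinal.sum (fun i : z => #(i.1.1 : Set S)) := mk_iUnion_le_sum_mk
      _ ≤ Cardinal.sum (fun _ : z => #(Iio c.1)) :=
          sum_le_sum _ _ fun i => i.1.2.2
      _ = #z * #(Iio c.1) := by rw [sum_const']
      _ < χ := mul_lt_of_lt hχ.aleph0_le (z2 c z hz) (hC' c)
  · intro b hb
    obtain ⟨Q, q1, q2, q3⟩ := x3 b hb
    have hW : ∀ c : C, ∃ W ⊆ Z c, #W < σ ∧ Subtype.val ⁻¹' Q ⊆ ⋃₀ W := fun c =>
      z3 c (Subtype.val ⁻¹' Q)
        ((mk_preimage_of_injective _ _ Subtype.val_injective).trans_lt q2)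
    choose W w1 w2 w3 using hW
    refine ⟨⋃ c : C, (fun z : Set (XX c) => ⋃₀ (Subtype.val '' z)) '' W c, ?_, ?_, ?_⟩
    · exact iUnion_mono fun c => image_mono (w1 c)
    · rw [card_iUnion_lt_iff_forall_of_isRegular hσ (hCc.trans_lt hcf)]
      exact fun c => mk_image_le.trans_lt (w2 c)
    · intro x hx
      obtain ⟨q, hq, hxq⟩ := q3 hx
      obtain ⟨a, ha⟩ := exists_Iio (x2 q (q1 hq))
      obtain ⟨c, hc, hac⟩ := hC a
      have hqc : q ∈ XX ⟨c, hc⟩ := by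
        refine ⟨q1 hq, ?_⟩
        rw [← ha]
        exact mk_le_mk_of_subset (Iio_subset_Iio hac)
      obtain ⟨z, hz, hz'⟩ := w3 ⟨c, hc⟩
        (show (⟨q, hqc⟩ : XX ⟨c, hc⟩) ∈ Subtype.val ⁻¹' Q from hq)
      exact ⟨_, mem_iUnion.2 ⟨⟨c, hc⟩, mem_image_of_mem _ hz⟩, q, ⟨_, hz', rfl⟩, hxq⟩

theorem CovG.uniform {S : Type u} {σ χ lam : Cardinal.{u}} (hS : #S = lam) (hσ : σ.IsRegular)
    (hχs : χ.IsSingular) (hcf : χ.ord.cof < σ) (hχ : χ ≤ lam)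
    (h : ∀ κ : Cardinal.{u}, κ.IsRegular → σ ≤ κ → κ < χ → CovG S χ (succ κ) κ lam) :
    ∀ θ : Cardinal.{u}, σ ≤ θ → θ < χ → CovG S χ (succ θ) σ lam := by
  intro θ
  induction θ using Cardinal.lt_wf.induction with
  | _ θ ih =>
    intro h1 h2
    rcases eq_or_lt_of_le h1 with h3 | h3
    · subst h3
      exact h _ hσ le_rfl h2
    · have hinf : ℵ₀ ≤ θ := hσ.aleph0_le.trans h1
      have hl : ℵ₀ ≤ lam := hinf.trans (h2.le.trans hχ)
      have hg : CovG S χ θ σ lam := CovG.gather hl (h2.le.trans hχ) h3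
        fun θ₁ h4 h5 => ih θ₁ h4 h5 (h4.trans h2)
      refine CovG.compose hl hS.ge hσ hχs hcf hχ ?_ hg
      rcases isRegular_or_isSingular hinf with h6 | h6
      · exact h θ h6 h1 h2
      · exact CovG.singular h6 h3 hg

/-- The regular `κ < χ` for which `lam` sets of size less than `χ` do not cover all sets of size `κ`
by less than `κ` members. -/
def ExcIn (χ lam : Cardinal.{u}) : Set Cardinal.{u} :=
  {κ | κ.IsRegular ∧ κ < χ ∧ lam < cov lam χ (succ κ) κ}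

/-- A singular cardinal `χ` is a `lam`-revision cardinal if and only if `ExcIn χ lam` is bounded in
`χ`. -/
theorem revision_iff_bounded {χ lam : Cardinal.{u}} (hχ : χ.IsSingular) (hl : χ ≤ lam) :
    IsRevision lam χ ↔ BoundedIn (ExcIn χ lam) χ := by
  constructor
  · rintro ⟨σ, h1, h2, h3⟩
    refine ⟨σ, h1, fun κ hκ hκχ => ?_⟩
    by_contra hn
    rw [not_lt] at hn
    obtain ⟨X, x1, x2, x3⟩ := (cov_le_iff h2).1 h3
    have : CovG lam.out χ (succ κ) κ lam :=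
      ⟨X, x1, x2, fun b hb => by
        obtain ⟨Q, q1, q2, q3⟩ := x3 b ((lt_succ_iff.1 hb).trans_lt hκχ)
        exact ⟨Q, q1, q2.trans_le hn, q3⟩⟩
    exact absurd ((cov_le_iffG (two_le hκ.1) (succ_le_of_lt hκχ)).2 this) (not_le.2 hκ.2.2)
  · rintro ⟨σ₀, h1, h2⟩
    have hm : max σ₀ (χ.ord.cof) < χ := max_lt h1 hχ.cof_ord_lt
    have hc : ℵ₀ ≤ χ.ord.cof :=
      (isRegular_cof (isSuccLimit_ord hχ.aleph0_le)).aleph0_le
    set σ := succ (max σ₀ (χ.ord.cof)) with hσd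
    have hσ : σ < χ := hχ.isSuccLimit.succ_lt hm
    have hr : σ.IsRegular := isRegular_succ (hc.trans (le_max_right _ _))
    have hcf : χ.ord.cof < σ := (le_max_right _ _).trans_lt (lt_succ _)
    have hC : ∀ κ : Cardinal.{u}, κ.IsRegular → σ ≤ κ → κ < χ →
        CovG lam.out χ (succ κ) κ lam := by
      intro κ k1 k2 k3
      rw [← cov_le_iffG (two_le k1) (succ_le_of_lt k3)]
      by_contra hn
      have := h2 κ ⟨k1, k3, not_le.1 hn⟩ k3
      exact absurd ((lt_succ _).trans_le k2) (not_lt.2 (this.le.trans (le_max_left _ _)))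
    have hU := CovG.uniform (mk_out lam) hr hχ hcf hl hC
    refine ⟨σ, hσ, two_le hr, (cov_le_iff (two_le hr)).2 ?_⟩
    exact CovG.gather (hχ.aleph0_le.trans hl) hl hσ fun θ₁ t1 t2 => hU θ₁ t2 t1

/-- Members of `ExcIn χ lam` come from cardinals `μ ≥ χ` of cofinality `κ`. -/
theorem exists_of_mem_excIn {χ lam κ : Cardinal.{u}} (h0 : ℵ₀ ≤ lam) (hκ : κ ∈ ExcIn χ lam) :
    ∃ μ : Cardinal.{u}, χ ≤ μ ∧ μ ≤ lam ∧ μ.ord.cof = κ ∧ lam < cov μ χ (succ κ) κ := by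
  obtain ⟨k1, k2, k3⟩ := hκ
  have h2 := two_le k1
  have hs := succ_le_of_lt k2
  let A := {μ : Cardinal.{u} | lam < cov μ χ (succ κ) κ}
  have hA : A.Nonempty := ⟨lam, k3⟩
  have hμ : lam < cov (sInf A) χ (succ κ) κ := csInf_mem hA
  have hle : sInf A ≤ lam := csInf_le' k3
  have hmin : ∀ μ' < sInf A, cov μ' χ (succ κ) κ ≤ lam := fun μ' hμ' =>
    not_lt.1 fun hh => absurd (csInf_le' (show μ' ∈ A from hh)) (not_le.2 hμ')
  have hκμ : χ ≤ sInf A := by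
    by_contra hc
    rw [not_le] at hc
    refine absurd ((cov_le_iffG h2 hs).2 (CovG.of_card_lt ?_ h2 ?_)) (not_le.2 hμ)
    · rw [mk_out]; exact hc
    · exact one_le_aleph0.trans h0
  have hinf : ℵ₀ ≤ sInf A := (k1.aleph0_le.trans k2.le).trans hκμ
  refine ⟨sInf A, hκμ, hle, ?_, hμ⟩
  by_contra hc
  exact absurd ((cov_le_iffG h2 hs).2 (CovG.limit k1 hinf hle hc
    fun μ' h' => (cov_le_iffG h2 hs).1 (hmin μ' h'))) (not_le.2 hμ)

lemma covG_mono_left {μ lam χ ρ σ : Cardinal.{u}} (h : μ ≤ lam) (hσ : 2 ≤ σ) (hρ : ρ ≤ χ) :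
    cov μ χ ρ σ ≤ cov lam χ ρ σ := by
  rw [cov_le_iffG hσ hρ]
  exact ((cov_le_iffG hσ hρ).1 le_rfl).embed (by rwa [mk_out, mk_out])

/-- The regular `κ < χ` which are the cofinality of some `μ`, `χ ≤ μ ≤ lam`, such that `lam` subsets of
`μ` of size less than `χ` do not cover all subsets of size `κ` by less than `κ` members. -/
def CofIn (χ lam : Cardinal.{u}) : Set Cardinal.{u} :=
  {κ | κ.IsRegular ∧ κ < χ ∧
    ∃ μ : Cardinal.{u}, χ ≤ μ ∧ μ ≤ lam ∧ μ.ord.cof = κ ∧ lam < cov μ χ (succ κ) κ}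

theorem excIn_eq {χ lam : Cardinal.{u}} (h0 : ℵ₀ ≤ lam) : ExcIn χ lam = CofIn χ lam := by
  ext κ
  constructor
  · intro hκ
    exact ⟨hκ.1, hκ.2.1, exists_of_mem_excIn h0 hκ⟩
  · rintro ⟨h1, h2, μ, -, h4, -, h6⟩
    exact ⟨h1, h2, h6.trans_le (covG_mono_left h4 (two_le h1) (succ_le_of_lt h2))⟩

/-- A singular cardinal `χ = ℵ_ o` is a `lam`-revision cardinal for all `lam` with
`χ ≤ lam < ℵ_ (o + χ)`. -/
theorem revision_range {o : Ordinal.{u}} {lam : Cardinal.{u}} (hs : (ℵ_ o).IsSingular)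
    (h1 : ℵ_ o ≤ lam) (h2 : lam < ℵ_ (o + ω_ o)) : IsRevision lam (ℵ_ o) := by
  rw [revision_iff_bounded hs h1]
  have h0 : ℵ₀ ≤ lam := hs.aleph0_le.trans h1
  obtain ⟨ε, rfl⟩ := mem_range_aleph_iff.2 h0
  have hoε : o ≤ ε := aleph_le_aleph.1 h1
  have hε : ε < o + ω_ o := aleph_lt_aleph.1 h2
  obtain ⟨ξ, rfl⟩ : ∃ ξ, ε = o + ξ := ⟨ε - o, (Ordinal.add_sub_cancel_of_le hoε).symm⟩
  have hξ : ξ < ω_ o := (add_lt_add_iff_left o).1 hε
  have hcard : ξ.card < ℵ_ o := by rwa [← lt_ord, ord_aleph]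
  refine ⟨succ (max ξ.card (ℵ_ o).ord.cof),
    hs.isSuccLimit.succ_lt (max_lt hcard hs.cof_ord_lt), ?_⟩
  intro κ hκ hκχ
  by_contra hn
  rw [not_lt] at hn
  obtain ⟨μ, m1, m2, m3, -⟩ := exists_of_mem_excIn h0 hκ
  obtain ⟨δ, rfl⟩ := mem_range_aleph_iff.2 (hs.aleph0_le.trans m1)
  have hoδ : o ≤ δ := aleph_le_aleph.1 m1
  obtain ⟨ζ, rfl⟩ : ∃ ζ, δ = o + ζ := ⟨δ - o, (Ordinal.add_sub_cancel_of_le hoδ).symm⟩
  have hζ : ζ ≤ ξ := (add_le_add_iff_left o).1 (aleph_le_aleph.1 m2)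
  have hζ0 : ζ ≠ 0 := by
    rintro rfl
    rw [add_zero] at m3
    have : (ℵ_ o).ord.cof < κ := ((le_max_right _ _).trans_lt (lt_succ _)).trans_le hn
    exact absurd m3 this.ne
  have hsing : (ℵ_ (o + ζ)).IsSingular :=
    ⟨hs.aleph0_le.trans m1, by rw [m3]; exact (hκχ.trans_le m1).ne⟩
  have hl2 := isSingular_aleph_iff.1 hsing
  have h3 : κ = ζ.cof := by
    rw [← m3, ord_aleph, cof_omega hl2.1, Ordinal.cof_add o hζ0]
  have h4 : κ ≤ ξ.card := by rw [h3]; exact (cof_le_card ζ).trans (card_le_card hζ)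
  exact absurd (((le_max_left _ _).trans_lt (lt_succ _)).trans_le hn) (not_lt.2 h4)

theorem covCof_le {μ : Cardinal.{u}} (hμ : μ.IsSingular) : covCof μ ≤ 2 ^ μ := by
  have hr : (μ.ord.cof).IsRegular := isRegular_cof (isSuccLimit_ord hμ.aleph0_le)
  unfold covCof
  rw [cov_le_iff (two_le hr)]
  exact Cov.of_powerset (by rw [mk_out]) (two_le hr)

/-- If `2 ^ θ ≤ ℵ_ (o + ξ)` for all `θ < ℵ_ o` then the exceptional cardinals for `ℵ_ (o + ξ)` are at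
most `|ξ|`, with the possible exception of the cofinality of `ℵ_ o`. -/
theorem exc_le {o ξ : Ordinal.{u}} (hp : ∀ θ < ℵ_ o, 2 ^ θ ≤ ℵ_ (o + ξ)) {κ : Cardinal.{u}}
    (hκ : κ ∈ Exc (ℵ_ (o + ξ))) : κ = (ℵ_ o).ord.cof ∨ κ ≤ ξ.card := by
  obtain ⟨μ, m1, m2, m3, m4⟩ := (mem_exc_iff (aleph0_le_aleph _)).1 hκ
  have hμ : ℵ_ o ≤ μ := by
    by_contra hn
    rw [not_le] at hn
    exact absurd (m4.trans_le (covCof_le m1)) (not_lt.2 (hp μ hn))
  obtain ⟨δ, rfl⟩ := mem_range_aleph_iff.2 m1.aleph0_le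
  have hoδ : o ≤ δ := aleph_le_aleph.1 hμ
  obtain ⟨ζ, rfl⟩ : ∃ ζ, δ = o + ζ := ⟨δ - o, (Ordinal.add_sub_cancel_of_le hoδ).symm⟩
  have hζ : ζ ≤ ξ := (add_le_add_iff_left o).1 (aleph_le_aleph.1 m3)
  rcases eq_or_ne ζ 0 with rfl | hζ0
  · left
    rw [add_zero] at m2
    exact m2.symm
  · right
    have hl2 := isSingular_aleph_iff.1 m1
    rw [← m2, ord_aleph, cof_omega hl2.1, Ordinal.cof_add o hζ0]
    exact (cof_le_card ζ).trans (card_le_card hζ)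

theorem finite_le_card {ξ : Ordinal.{u}} (hξ : ξ < ω_ ω) :
    {κ : Cardinal.{u} | ℵ₀ ≤ κ ∧ κ ≤ ξ.card}.Finite := by
  have h1 : ξ.card < ℵ_ ω := by rwa [← lt_ord, ord_aleph]
  rcases lt_or_ge ξ.card ℵ₀ with h2 | h2
  · refine Set.finite_empty.subset fun κ hκ => ?_
    exact absurd (hκ.1.trans hκ.2) (not_le.2 h2)
  · obtain ⟨b, hb⟩ := mem_range_aleph_iff.2 h2
    rw [← hb] at h1
    obtain ⟨m, rfl⟩ := Ordinal.lt_omega0.1 (aleph_lt_aleph.1 h1)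
    refine ((Set.finite_Iic m).image (fun n : ℕ => ℵ_ (n : Ordinal.{u}))).subset ?_
    rintro κ ⟨k1, k2⟩
    obtain ⟨a, rfl⟩ := mem_range_aleph_iff.2 k1
    rw [← hb] at k2
    have ha := aleph_le_aleph.1 k2
    obtain ⟨n, rfl⟩ := Ordinal.lt_omega0.1 (ha.trans_lt (Ordinal.natCast_lt_omega0 m))
    exact ⟨n, by exact_mod_cast ha, rfl⟩

theorem exc_finite {o ξ : Ordinal.{u}} (hp : ∀ θ < ℵ_ o, 2 ^ θ ≤ ℵ_ (o + ξ)) (hξ : ξ < ω_ ω) :
    (Exc (ℵ_ (o + ξ))).Finite := by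
  refine ((Set.finite_singleton (ℵ_ o).ord.cof).union (finite_le_card hξ)).subset ?_
  intro κ hκ
  rcases exc_le hp hκ with h | h
  · exact Or.inl h
  · exact Or.inr ⟨hκ.1.aleph0_le, h⟩

theorem exc_or {o : Ordinal.{u}} {lam : Cardinal.{u}} (h : ℵ_ o ≤ lam)
    (hp : ∀ θ < ℵ_ o, 2 ^ θ ≤ lam) {κ : Cardinal.{u}} (hκ : κ ∈ Exc lam) :
    κ = (ℵ_ o).ord.cof ∨ ℵ_ (o + κ.ord) ≤ lam := by
  obtain ⟨ε, rfl⟩ := mem_range_aleph_iff.2 ((aleph0_le_aleph o).trans h)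
  have hoε : o ≤ ε := aleph_le_aleph.1 h
  obtain ⟨ξ, rfl⟩ : ∃ ξ, ε = o + ξ := ⟨ε - o, (Ordinal.add_sub_cancel_of_le hoε).symm⟩
  rcases exc_le hp hκ with h1 | h1
  · exact Or.inl h1
  · right
    rw [aleph_le_aleph]
    exact add_le_add_right (ord_le.2 h1) o

theorem le_of_infinite {o : Ordinal.{u}} {lam : Cardinal.{u}} (h : ℵ_ o ≤ lam)
    (hp : ∀ θ < ℵ_ o, 2 ^ θ ≤ lam) (hinf : (Exc lam).Infinite) : ℵ_ (o + ω_ ω) ≤ lam := by
  obtain ⟨ε, rfl⟩ := mem_range_aleph_iff.2 ((aleph0_le_aleph o).trans h)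
  have hoε : o ≤ ε := aleph_le_aleph.1 h
  obtain ⟨ξ, rfl⟩ : ∃ ξ, ε = o + ξ := ⟨ε - o, (Ordinal.add_sub_cancel_of_le hoε).symm⟩
  rw [aleph_le_aleph]
  refine add_le_add_right ?_ o
  by_contra hn
  exact hinf (exc_finite hp (not_le.1 hn))

/-- the least cardinal whose power exceeds `lam` -/
theorem exists_theta {lam : Cardinal.{u}} (h0 : ℵ₀ ≤ lam) :
    ∃ o : Ordinal.{u}, ℵ_ o ≤ lam ∧ lam < 2 ^ (ℵ_ o) ∧ ∀ θ < ℵ_ o, 2 ^ θ ≤ lam := by
  let A := {θ : Cardinal.{u} | lam < 2 ^ θ}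
  have hA : lam ∈ A := cantor lam
  have h1 : lam < 2 ^ (sInf A) := csInf_mem (⟨lam, hA⟩ : A.Nonempty)
  have h2 : sInf A ≤ lam := csInf_le' hA
  have h3 : ℵ₀ ≤ sInf A := by
    by_contra hn
    rw [not_le] at hn
    exact absurd (power_lt_aleph0 (natCast_lt_aleph0 (n := 2)) hn) (not_lt.2 (h0.trans h1.le))
  obtain ⟨o, ho⟩ := mem_range_aleph_iff.2 h3
  refine ⟨o, by rwa [ho], by rwa [ho], fun θ hθ => ?_⟩
  rw [ho] at hθ
  exact not_lt.1 fun hh => absurd (csInf_le' (show θ ∈ A from hh)) (not_le.2 hθ)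

/-- The successor of a singular `lam`-revision cardinal is a `lam`-revision cardinal. -/
theorem revision_succ {χ lam : Cardinal.{u}} (hs : χ.IsSingular) (h : IsRevision lam χ) :
    IsRevision lam (succ χ) := by
  obtain ⟨σ, h1, h2, h3⟩ := h
  refine ⟨χ, lt_succ χ, h2.trans h1.le, ?_⟩
  exact (cov_le_iff (h2.trans h1.le)).2 (Cov.singular hs h1 ((cov_le_iff h2).1 h3))

end Pool.Agent.H7.REV
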